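import Mathlib

set_option autoImplicit false

/-!
# Real parts of zeros: limit points, finiteness
-/

namespace Pool.Agent.U4.JD

open Complex Filter Topology Set

theorem re_lt_one {s : ℂ} (h : riemannZeta s = 0) : s.re < 1 := by
  by_contra hcon
  exact riemannZeta_ne_zero_of_one_le_re (not_lt.1 hcon) h

/-- a limit point of the real parts of high zeros -/
theorem lim_pt {y δ : ℝ} (h : ∀ T0 : ℝ, ∃ s : ℂ, riemannZeta s = 0 ∧ 1 / 2 + y + δ ≤ s.re ∧ T0 ≤ s.im) :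
    ∃ w : ℝ, y + δ ≤ w ∧ w ≤ 1 / 2 ∧ ∀ ε T1 : ℝ, 0 < ε → ∃ s : ℂ, riemannZeta s = 0 ∧
      |s.re - 1 / 2 - w| ≤ ε ∧ s.re < 1 ∧ T1 ≤ s.im := by
  choose f hf1 hf2 hf3 using fun k : ℕ => h (k : ℝ)
  have hmem : ∀ k, (f k).re - 1 / 2 ∈ Icc (y + δ) (1 / 2) := fun k =>
    ⟨by have := hf2 k; linarith, by have := re_lt_one (hf1 k); linarith⟩
  obtain ⟨w, hw, φ, hφ, hlim⟩ := isCompact_Icc.tendsto_subseq hmem
  refine ⟨w, hw.1, hw.2, fun ε T1 hε => ?_⟩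
  have h1 : ∀ᶠ k in atTop, |(f (φ k)).re - 1 / 2 - w| ≤ ε := by
    have := (Metric.tendsto_atTop.1 hlim) ε hε
    obtain ⟨N, hN⟩ := this
    filter_upwards [eventually_ge_atTop N] with k hk
    exact (hN k hk).le
  have h2 : ∀ᶠ k : ℕ in atTop, T1 ≤ (k : ℝ) := tendsto_natCast_atTop_atTop.eventually_ge_atTop T1
  obtain ⟨k, hk1, hk2⟩ := (h1.and h2).exists
  refine ⟨f (φ k), hf1 _, hk1, re_lt_one (hf1 _), ?_⟩
  have h3 : (k : ℝ) ≤ (φ k : ℕ) := by exact_mod_cast hφ.le_apply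
  linarith [hf3 (φ k)]

/-- Only finitely many zeros of zeta with `Re s ≥ θ + ε`, for every `ε > 0`. -/
def Edge (θ : ℝ) : Prop := ∀ ε : ℝ, 0 < ε → {s : ℂ | riemannZeta s = 0 ∧ θ + ε ≤ s.re}.Finite

theorem edge_of {y : ℝ} (hy : 0 ≤ y)
    (h : ∀ δ : ℝ, 0 < δ → ∃ T0 : ℝ, ∀ s : ℂ, riemannZeta s = 0 → 1 / 2 + y + δ ≤ s.re → s.im ≤ T0) :
    Edge (1 / 2 + y) := by
  intro δ hδ
  obtain ⟨T0, hT0⟩ := h δ hδ
  obtain ⟨K, hK⟩ : ∃ K : Set ℂ, K = Icc (1 / 2 : ℝ) 1 ×ℂ Icc (-|T0|) |T0| := ⟨_, rfl⟩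
  have hKc : IsCompact K := by
    rw [hK]
    exact isCompact_Icc.reProdIm isCompact_Icc
  refine hKc.inter_riemannZetaZeros_finite.subset ?_
  rintro s ⟨hs1, hs2⟩
  refine ⟨?_, hs1⟩
  rw [hK, Complex.mem_reProdIm]
  have h1 := hT0 s hs1 hs2
  have h2 := hT0 ((starRingEnd ℂ) s) (by rw [riemannZeta_conj, hs1, map_zero])
    (by rw [Complex.conj_re]; exact hs2)
  rw [Complex.conj_im] at h2
  have h3 := le_abs_self T0
  exact ⟨⟨by linarith, (re_lt_one hs1).le⟩, ⟨by linarith, by linarith⟩⟩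

theorem of_edge {θ : ℝ} (h : Edge θ) (δ : ℝ) (hδ : 0 < δ) :
    ∃ T0 : ℝ, ∀ s : ℂ, riemannZeta s = 0 → θ + δ ≤ s.re → s.im < T0 := by
  obtain ⟨T0, hT0⟩ := ((h δ hδ).image Complex.im).bddAbove
  refine ⟨T0 + 1, fun s hs1 hs2 => ?_⟩
  have := hT0 ⟨s, ⟨hs1, hs2⟩, rfl⟩
  linarith

end Pool.Agent.U4.JD
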