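import Pool.Agent.U4.JC.Pt

set_option autoImplicit false

/-!
# The properties `P3` and `P5` from a growth bound for zeta
-/

namespace Pool.Agent.U4.JD

open Complex Filter Topology MeasureTheory Set
open Pool.Agent.H24R2.JP (XX HH Om FF jensen Hyperbolic)
open Pool.Agent.U4.JC

/-- the order of zeta vanishes to the right of `θ` -/
def Lind (θ : ℝ) : Prop := ∀ σ ε : ℝ, θ < σ → 0 < ε → ∃ C : ℝ, ∀ t : ℝ, 1 ≤ t →
  ‖riemannZeta ((σ : ℂ) + t * I)‖ ≤ C * t ^ ε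

/-- the convexity bound from the growth condition -/
theorem plG {y : ℝ} (hy : 0 ≤ y) (hG : Lind (1 / 2 + y)) (x0 ν R : ℝ) (h1 : y < x0) (h2 : x0 ≤ 1)
    (hν : 0 < ν) (hν1 : ν ≤ 1) (hR : 1 ≤ R) : ∃ C' T0 : ℝ, 0 < C' ∧ 2 ≤ T0 ∧
    ∀ (t : ℝ) (u : ℂ), T0 ≤ t → |u.re| ≤ x0 → |u.im| ≤ R →
      ‖XX (I * t + u)‖ ≤ C' * t ^ ν * (Real.exp (x0 * Om t) * ‖HH (I * t)‖) := by
  obtain ⟨C, hC⟩ := hG (1 / 2 + x0) ν (by linarith) hν
  refine Pool.Agent.H986R2.K4.pl Pool.Agent.H986R2.K4.hh x0 ν (max C 1) 1 R (by linarith) h2 hν.le hν1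
    (lt_max_of_lt_right one_pos) le_rfl hR ?_
  intro t ht
  have h := hC t ht
  have e1 : (1 / 2 : ℂ) + ((x0 : ℝ) : ℂ) + t * I = ((1 / 2 + x0 : ℝ) : ℂ) + t * I := by
    push_cast; ring
  rw [e1]
  refine h.trans ?_
  have : 0 ≤ t ^ ν := Real.rpow_nonneg (by linarith) _
  have := le_max_left C 1
  gcongr

theorem P3 {y : ℝ} (hy : 0 ≤ y) (hG : Lind (1 / 2 + y)) (s ν ε : ℝ) (hs : y < s) (hs1 : s ≤ 1 / 2)
    (hν : 0 < ν) (hν1 : ν ≤ 1 / 8) (hε : 0 < ε) (hε1 : ε ≤ 1) : ∃ T0 : ℝ, 2000 ≤ T0 ∧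
    ∀ (T : ℝ) (D : ℕ) (xp : ℝ), T0 ≤ T → T ^ (2 + ε) ≤ D → (D : ℝ) ≤ T ^ (6 : ℝ) → |xp| ≤ 1 →
    ∀ u : ℂ, |u.re| ≤ s → |u.im| ≤ 1 →
      ‖pp D T xp u‖ ≤ Real.exp ((s + ν) * Om T) * ‖HH (I * T)‖ := by
  obtain ⟨x0, hx0⟩ : ∃ x0 : ℝ, x0 = s + ν / 4 := ⟨_, rfl⟩
  obtain ⟨C', T1, hC', hT1, hPL⟩ := plG hy hG x0 (ν / 8) 2 (by linarith) (by linarith) (by positivity)
    (by linarith) (by norm_num)
  obtain ⟨ρ1, hρ, hρ1, hρ2⟩ : ∃ ρ1 : ℝ, 0 < ρ1 ∧ ρ1 ≤ ν / 8 ∧ ρ1 ≤ 1 / 2 :=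
    ⟨min (ν / 8) (1 / 2), lt_min (by positivity) (by norm_num), min_le_left _ _,
      min_le_right _ _⟩
  obtain ⟨T2, hT2, hc⟩ := cmpu ε ρ1 hε hε1 hρ
  obtain ⟨T3, hT3⟩ := eventually_atTop.1 (ev_exp (2 * C' + 1) (ν / 2) (by positivity))
  refine ⟨max (max T1 T2) (max T3 (1000 / ρ1)),
    hT2.trans ((le_max_right _ _).trans (le_max_left _ _)), ?_⟩
  intro T D xp hT hD1 hD2 hxp u hu1 hu2
  have hTT1 : T1 ≤ T := ((le_max_left _ _).trans (le_max_left _ _)).trans hT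
  have hTT2 : T2 ≤ T := ((le_max_right _ _).trans (le_max_left _ _)).trans hT
  have hTT3 : T3 ≤ T := ((le_max_left _ _).trans (le_max_right _ _)).trans hT
  have hTT4 : 1000 / ρ1 ≤ T := ((le_max_right _ _).trans (le_max_right _ _)).trans hT
  have hT2000 : 2000 ≤ T := hT2.trans hTT2
  have hT0 : 0 < T := by linarith
  have hOm : 0 ≤ Om T := by
    unfold Pool.Agent.H24R2.JP.Om
    have := Real.log_nonneg (by linarith : (1 : ℝ) ≤ T)
    linarith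
  have hun : ‖u‖ ≤ 20 := (norm_re_im hu1 hu2).trans (by linarith)
  obtain ⟨z, hz1, hz2⟩ := pt T xp u hT2000 hxp hun
  have h3 : 1000 / T ≤ ρ1 := by
    rw [div_le_iff₀ hT0]
    rw [div_le_iff₀ hρ] at hTT4
    linarith
  set H := ‖HH (I * T)‖ with hH
  have hH0 : 0 ≤ H := norm_nonneg _
  set M : ℝ := C' * T ^ (ν / 8) * (Real.exp (x0 * Om T) * H) with hM
  have hb : ∀ w : ℂ, ‖w - z‖ ≤ ρ1 → ‖XX w‖ ≤ M := by
    intro w hw
    have h4 : ‖(w - I * T) - u‖ ≤ 2 * ρ1 := by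
      calc ‖(w - I * T) - u‖ = ‖(w - z) + (z - (I * T + u))‖ := by congr 1; ring
        _ ≤ ‖w - z‖ + ‖z - (I * T + u)‖ := norm_add_le _ _
        _ ≤ 2 * ρ1 := by linarith
    have h5 := (abs_re_le_norm ((w - I * T) - u)).trans h4
    have h6 := (abs_im_le_norm ((w - I * T) - u)).trans h4
    rw [sub_re] at h5
    rw [sub_im] at h6
    have h5' := abs_le.1 h5
    have h6' := abs_le.1 h6
    have hu1' := abs_le.1 hu1
    have hu2' := abs_le.1 hu2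
    have h7 := hPL T (w - I * T) hTT1 (by rw [abs_le]; constructor <;> linarith)
      (by rw [abs_le]; constructor <;> linarith)
    have e1 : I * (T : ℂ) + (w - I * T) = w := by ring
    rw [e1] at h7
    exact h7
  have h7 := hc T D xp u z M hTT2 hD1 hD2 hun hz1 hz2 hb
  have h8 := hb z (by simpa using hρ.le)
  have hM0 : 0 ≤ M := (norm_nonneg _).trans h8
  have h9 : T ^ (-(ε / 8)) ≤ 1 := Real.rpow_le_one_of_one_le_of_nonpos (by linarith) (by linarith)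
  have h10 : T⁻¹ ≤ 1 := inv_le_one_of_one_le₀ (by linarith)
  have h12 : ‖pp D T xp u‖ ≤ 2 * M + H := by
    calc ‖pp D T xp u‖ = ‖(pp D T xp u - XX z) + XX z‖ := by congr 1; ring
      _ ≤ ‖pp D T xp u - XX z‖ + ‖XX z‖ := norm_add_le _ _
      _ ≤ (1 * M + 1 * H) + M := by
          refine add_le_add (h7.trans ?_) h8
          gcongr
      _ = 2 * M + H := by ring
  refine h12.trans ?_
  have h13 := hT3 T hTT3
  have h14 : M = C' * Real.exp ((s + ν / 2) * Om T) * H := by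
    rw [hM, T_exp hT0, hx0]
    have : C' * Real.exp (2 * (ν / 8) * Om T) * (Real.exp ((s + ν / 4) * Om T) * H) =
        C' * (Real.exp (2 * (ν / 8) * Om T) * Real.exp ((s + ν / 4) * Om T)) * H := by ring
    rw [this, ← Real.exp_add]
    congr 3
    ring
  have h18 : 1 ≤ Real.exp ((s + ν / 2) * Om T) := by
    apply Real.one_le_exp
    have : 0 ≤ s + ν / 2 := by linarith
    positivity
  calc 2 * M + H ≤ 2 * (C' * Real.exp ((s + ν / 2) * Om T) * H) +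
        Real.exp ((s + ν / 2) * Om T) * H := by
        have : 1 * H ≤ Real.exp ((s + ν / 2) * Om T) * H := by gcongr
        linarith
    _ = (2 * C' + 1) * Real.exp ((s + ν / 2) * Om T) * H := by ring
    _ ≤ Real.exp (ν / 2 * Om T) * Real.exp ((s + ν / 2) * Om T) * H := by
        gcongr
    _ = _ := by
        rw [← Real.exp_add]
        congr 2
        ring

theorem P5 {y : ℝ} (hy : 0 ≤ y) (hG : Lind (1 / 2 + y)) (w ε : ℝ) (hw : y < w) (hw1 : w ≤ 1 / 2)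
    (hε : 0 < ε) (hε1 : ε ≤ 1) : ∃ T0 : ℝ, 2000 ≤ T0 ∧
    ∀ (T : ℝ) (D : ℕ) (xp : ℝ), T0 ≤ T → T ^ (2 + ε) ≤ D → (D : ℝ) ≤ T ^ (6 : ℝ) → 0 ≤ xp →
    |xp - w| ≤ ε / 64 → XX (I * T + (xp : ℂ)) = 0 →
      ‖pp D T xp xp‖ ≤ Real.exp ((w - ε / 8) * Om T) * ‖HH (I * T)‖ := by
  obtain ⟨C', T1, hC', hT1, hPL⟩ := plG hy hG (w + ε / 32) (ε / 64) 1 (by linarith) (by linarith)
    (by positivity) (by linarith) le_rfl
  obtain ⟨T2, hT2, hc⟩ := cmpu ε (ε / 64) hε hε1 (by positivity)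
  obtain ⟨T3, hT3⟩ := eventually_atTop.1 (ev_exp (C' + 1) (ε / 16) (by positivity))
  refine ⟨max T1 (max T2 T3), hT2.trans ((le_max_left _ _).trans (le_max_right _ _)), ?_⟩
  intro T D xp hT hD1 hD2 hxp0 hxp1 hzero
  have hTT1 : T1 ≤ T := (le_max_left _ _).trans hT
  have hTT2 : T2 ≤ T := ((le_max_left _ _).trans (le_max_right _ _)).trans hT
  have hTT3 : T3 ≤ T := ((le_max_right _ _).trans (le_max_right _ _)).trans hT
  have hT2000 : 2000 ≤ T := hT2.trans hTT2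
  have hT0 : 0 < T := by linarith
  have hOm : 0 ≤ Om T := by
    unfold Pool.Agent.H24R2.JP.Om
    have := Real.log_nonneg (by linarith : (1 : ℝ) ≤ T)
    linarith
  set H := ‖HH (I * T)‖ with hH
  have hH0 : 0 ≤ H := norm_nonneg _
  set M : ℝ := C' * T ^ (ε / 64) * (Real.exp ((w + ε / 32) * Om T) * H) with hM
  have hxp2 := abs_le.1 hxp1
  have hxn : ‖(xp : ℂ)‖ ≤ 1 := by
    rw [norm_real, Real.norm_of_nonneg hxp0]; linarith
  have hb : ∀ v : ℂ, ‖v - (I * T + (xp : ℂ))‖ ≤ ε / 64 → ‖XX v‖ ≤ M := by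
    intro v hv
    have e0 : v - (I * T + (xp : ℂ)) = (v - I * T) - (xp : ℂ) := by ring
    rw [e0] at hv
    have h5 := (abs_re_le_norm ((v - I * T) - (xp : ℂ))).trans hv
    have h6 := (abs_im_le_norm ((v - I * T) - (xp : ℂ))).trans hv
    rw [sub_re, ofReal_re] at h5
    rw [sub_im, ofReal_im, sub_zero] at h6
    have h5' := abs_le.1 h5
    have h7 := hPL T (v - I * T) hTT1 (by rw [abs_le]; constructor <;> linarith)
      (h6.trans (by linarith))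
    have e1 : I * (T : ℂ) + (v - I * T) = v := by ring
    rw [e1] at h7
    exact h7
  have hz1 : (I * (T : ℂ) + (xp : ℂ)) ^ 2 = xx T xp xp := by
    unfold xx
    push_cast
    have hI : I ^ 2 = -1 := I_sq
    linear_combination (T : ℂ) ^ 2 * hI
  have h7 := hc T D xp xp (I * T + (xp : ℂ)) M hTT2 hD1 hD2 (by linarith) hz1 (by
    rw [sub_self, norm_zero]; positivity) hb
  rw [hzero, sub_zero] at h7
  refine h7.trans ?_
  have h13 := hT3 T hTT3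
  have hM0 : 0 ≤ M := by rw [hM]; positivity
  have h8 : T ^ (-(ε / 8)) * M = C' * Real.exp ((w - 3 * ε / 16) * Om T) * H := by
    rw [hM, T_exp hT0, T_exp hT0]
    have : Real.exp (2 * -(ε / 8) * Om T) * (C' * Real.exp (2 * (ε / 64) * Om T) *
        (Real.exp ((w + ε / 32) * Om T) * H)) = C' * (Real.exp (2 * -(ε / 8) * Om T) *
        Real.exp (2 * (ε / 64) * Om T) * Real.exp ((w + ε / 32) * Om T)) * H := by ring
    rw [this, ← Real.exp_add, ← Real.exp_add]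
    congr 3
    ring
  have h9 : T⁻¹ * H ≤ Real.exp ((w - 3 * ε / 16) * Om T) * H := by
    rw [Tinv_exp hT0]
    have : -(2 * Om T) ≤ (w - 3 * ε / 16) * Om T := by
      have h10 : -2 ≤ w - 3 * ε / 16 := by linarith
      calc -(2 * Om T) = -2 * Om T := by ring
        _ ≤ _ := by gcongr
    gcongr
  rw [h8]
  calc C' * Real.exp ((w - 3 * ε / 16) * Om T) * H + T⁻¹ * H
      ≤ C' * Real.exp ((w - 3 * ε / 16) * Om T) * H +
        Real.exp ((w - 3 * ε / 16) * Om T) * H := by linarith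
    _ = (C' + 1) * Real.exp ((w - 3 * ε / 16) * Om T) * H := by ring
    _ ≤ Real.exp (ε / 16 * Om T) * Real.exp ((w - 3 * ε / 16) * Om T) * H := by gcongr
    _ = _ := by
        rw [← Real.exp_add]
        congr 2
        ring

end Pool.Agent.U4.JD
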