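import Pool.Agent.U4.JD.Conv
import Pool.Agent.U4.JD.Pt
import Pool.Agent.U4.JD.Lim
import Pool.Agent.U4.JC.P2
import Pool.Agent.H986R2.K4.SAB
import Pool.Agent.H986R2.K4.LL
import Pool.Agent.H986R2.K4.LR
import Pool.Agent.H986R2.K4.Tay

set_option autoImplicit false

/-!
# The converse for the derivatives of the xi function, under a growth condition
-/

namespace Pool.Agent.U4.JD

open Complex Filter Topology MeasureTheory Set
open Pool.Agent.H24R2.JP (XX HH Om FF jensen Hyperbolic)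
open Pool.Agent.U4.JC

/-- the xi function in the coordinate `u` -/
noncomputable def px (T : ℝ) (u : ℂ) : ℂ := XX (I * T + u)

theorem XX_diff : Differentiable ℂ XX := by
  have e : XX = fun z : ℂ => FF (z ^ 2) := by
    funext z
    exact (Pool.Agent.H24R2.JP.b1.2.1 z).symm
  rw [e]
  exact (FF_diff).comp (by fun_prop : Differentiable ℂ (fun z : ℂ => z ^ 2))

theorem px_diff (T : ℝ) : Differentiable ℂ (px T) :=
  XX_diff.comp (by fun_prop : Differentiable ℂ (fun u : ℂ => I * (T : ℂ) + u))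

theorem px_iter (T : ℝ) (n : ℕ) (u : ℂ) :
    iteratedDeriv n (px T) u = iteratedDeriv n XX (I * T + u) := by
  unfold px
  rw [iteratedDeriv_comp_const_add]

theorem px_logDeriv (T : ℝ) (u : ℂ) : logDeriv (px T) u = logDeriv XX (I * T + u) := by
  unfold px
  rw [logDeriv_apply, logDeriv_apply, deriv_comp_const_add]

theorem Q1 : ∃ K T0 : ℝ, 1 ≤ K ∧ 2000 ≤ T0 ∧ ∀ T : ℝ, T0 ≤ T →
    ∀ u : ℂ, |u.re| ≤ 11 → |u.im| ≤ 11 →
      ‖px T u‖ ≤ Real.exp (K * Om T) * ‖HH (I * T)‖ := by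
  obtain ⟨K, T1, hT1, hxb⟩ := Pool.Agent.H24R2.DZ.xb 25
  refine ⟨2 * |K| + 1, max T1 2000, by have := abs_nonneg K; linarith, le_max_right _ _, ?_⟩
  intro T hT u hu1 hu2
  have hTT1 : T1 ≤ T := (le_max_left _ _).trans hT
  have hT2000 : 2000 ≤ T := (le_max_right _ _).trans hT
  have hOm : 0 ≤ Om T := by
    unfold Pool.Agent.H24R2.JP.Om
    have := Real.log_nonneg (by linarith : (1 : ℝ) ≤ T)
    linarith
  have hlog : Real.log T = 2 * Om T := by unfold Pool.Agent.H24R2.JP.Om; ring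
  have hun : ‖u‖ ≤ 17 := norm_box (by linarith) (by linarith)
  have h5 := (hxb T u hTT1 (by linarith)).1
  rw [hlog] at h5
  refine h5.trans ?_
  have : K * (2 * Om T) ≤ (2 * |K| + 1) * Om T := by
    have h6 : K * (2 * Om T) ≤ |K| * (2 * Om T) := by gcongr; exact le_abs_self K
    linarith
  gcongr

theorem Q2 (η1 : ℝ) (hη1 : 0 < η1) : ∃ T0 : ℝ, 2000 ≤ T0 ∧ ∀ T : ℝ, T0 ≤ T →
    ∀ u : ℂ, 3 / 4 ≤ u.re → u.re ≤ 11 → |u.im| ≤ 11 → px T u ≠ 0 ∧
      ‖logDeriv (px T) u - (Om T : ℂ)‖ ≤ η1 * Om T ∧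
      Real.exp ((u.re - η1) * Om T) * ‖HH (I * T)‖ ≤ ‖px T u‖ ∧
      ‖px T u‖ ≤ Real.exp ((u.re + η1) * Om T) * ‖HH (I * T)‖ := by
  obtain ⟨ε', hε'0, hε'1, hε'2⟩ : ∃ ε' : ℝ, 0 < ε' ∧ ε' ≤ 1 / 16 ∧ ε' ≤ η1 / 32 :=
    ⟨min (1 / 16) (η1 / 32), lt_min (by norm_num) (by positivity), min_le_left _ _, min_le_right _ _⟩
  obtain ⟨K, T1, hK, hT1, hx⟩ := xi_right ε' hε'0 hε'1
  obtain ⟨T4, hT4⟩ := eventually_atTop.1 (Om_tendsto.eventually_ge_atTop (4 * K / η1 + 1))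
  refine ⟨max (max T1 T4) 2000, le_max_right _ _, ?_⟩
  intro T hT u hu1 hu2 hu3
  have hTT1 : T1 ≤ T := ((le_max_left _ _).trans (le_max_left _ _)).trans hT
  have hTT4 : T4 ≤ T := ((le_max_right _ _).trans (le_max_left _ _)).trans hT
  have hT2000 : 2000 ≤ T := (le_max_right _ _).trans hT
  have hOm' := hT4 T hTT4
  have hOm1 : 1 ≤ Om T := by
    have : 0 ≤ 4 * K / η1 := by positivity
    linarith
  have hOmη : 4 * K ≤ η1 * Om T := by
    have h1 : 4 * K / η1 ≤ Om T := by linarith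
    rw [div_le_iff₀ hη1] at h1
    linarith
  have hun : ‖u‖ ≤ 17 := norm_box (by rw [abs_le]; constructor <;> linarith) (by linarith)
  obtain ⟨c1, c2, c3, c4⟩ := hx T u hTT1 (by linarith) (by linarith)
  have hε'L : 4 * ε' * Om T ≤ η1 / 8 * Om T := by
    have : 4 * ε' ≤ η1 / 8 := by linarith
    gcongr
  have hH0 : 0 ≤ ‖HH (I * T)‖ := norm_nonneg _
  have hη1L : 0 ≤ η1 * Om T := by positivity
  refine ⟨c1, ?_, ?_, ?_⟩
  · rw [px_logDeriv]
    refine c2.trans ?_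
    linarith
  · refine le_trans ?_ c3
    have : (u.re - η1) * Om T ≤ (u.re - 4 * ε') * Om T - K := by
      have e1 : (u.re - η1) * Om T = u.re * Om T - η1 * Om T := by ring
      have e2 : (u.re - 4 * ε') * Om T = u.re * Om T - 4 * ε' * Om T := by ring
      rw [e1, e2]
      linarith
    gcongr
  · refine c4.trans ?_
    have : (u.re + 4 * ε') * Om T + K ≤ (u.re + η1) * Om T := by
      have e1 : (u.re + η1) * Om T = u.re * Om T + η1 * Om T := by ring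
      have e2 : (u.re + 4 * ε') * Om T = u.re * Om T + 4 * ε' * Om T := by ring
      rw [e1, e2]
      linarith
    gcongr

theorem Q3 {y : ℝ} (hy : 0 ≤ y) (hG : Lind (1 / 2 + y)) (s ν : ℝ) (hs : y < s) (hs1 : s ≤ 1 / 2)
    (hν : 0 < ν) (hν1 : ν ≤ 1 / 8) : ∃ T0 : ℝ, 2000 ≤ T0 ∧ ∀ T : ℝ, T0 ≤ T →
    ∀ u : ℂ, |u.re| ≤ s → |u.im| ≤ 1 →
      ‖px T u‖ ≤ Real.exp ((s + ν) * Om T) * ‖HH (I * T)‖ := by
  obtain ⟨C', T1, hC', hT1, hPL⟩ := plG hy hG s (ν / 4) 1 hs (by linarith) (by positivity)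
    (by linarith) le_rfl
  obtain ⟨T3, hT3⟩ := eventually_atTop.1 (ev_exp C' (ν / 2) (by positivity))
  refine ⟨max (max T1 T3) 2000, le_max_right _ _, ?_⟩
  intro T hT u hu1 hu2
  have hTT1 : T1 ≤ T := ((le_max_left _ _).trans (le_max_left _ _)).trans hT
  have hTT3 : T3 ≤ T := ((le_max_right _ _).trans (le_max_left _ _)).trans hT
  have hT2000 : 2000 ≤ T := (le_max_right _ _).trans hT
  have hT0 : 0 < T := by linarith
  have h := hPL T u hTT1 hu1 hu2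
  have h13 := hT3 T hTT3
  refine h.trans ?_
  rw [T_exp hT0]
  calc C' * Real.exp (2 * (ν / 4) * Om T) * (Real.exp (s * Om T) * ‖HH (I * T)‖)
      ≤ Real.exp (ν / 2 * Om T) * Real.exp (2 * (ν / 4) * Om T) *
          (Real.exp (s * Om T) * ‖HH (I * T)‖) := by gcongr
    _ = (Real.exp (ν / 2 * Om T) * Real.exp (2 * (ν / 4) * Om T) * Real.exp (s * Om T)) *
          ‖HH (I * T)‖ := by ring
    _ = _ := by
        rw [← Real.exp_add, ← Real.exp_add]
        congr 2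
        ring

theorem dconvG (y : ℝ) (hy0 : 0 ≤ y) (hG : Lind (1 / 2 + y))
    (hA : ∀ κ : ℝ, 0 < κ → κ * y < 2 → ∃ N : ℕ, ∀ n : ℕ, N ≤ n → ∀ z : ℂ,
      iteratedDeriv n XX z = 0 → |z.im| ≤ Real.exp (κ * n) → z.re = 0) (δ : ℝ) (hδ : 0 < δ) :
    ∃ T0 : ℝ, ∀ s : ℂ, riemannZeta s = 0 → 1 / 2 + y + δ ≤ s.re → s.im ≤ T0 := by
  by_contra hcon
  push Not at hcon
  obtain ⟨w, hw1, hw2, hv⟩ := lim_pt (y := y) (δ := δ) (fun T0 => by
    obtain ⟨s, h1, h2, h3⟩ := hcon T0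
    exact ⟨s, h1, h2, h3.le⟩)
  have hyd : 0 < y + δ / 8 := by positivity
  obtain ⟨κ, hκ⟩ : ∃ κ : ℝ, κ = 2 / (y + δ / 8) := ⟨_, rfl⟩
  have hκp : 0 < κ := by rw [hκ]; positivity
  have hκe : κ * (y + δ / 8) = 2 := by rw [hκ]; field_simp
  obtain ⟨N, hN⟩ := hA κ hκp (by
    have : 0 < κ * (δ / 8) := by positivity
    linarith)
  obtain ⟨r', hr'⟩ : ∃ r' : ℝ, r' = y + δ / 4 := ⟨_, rfl⟩
  obtain ⟨r1, hr1⟩ : ∃ r1 : ℝ, r1 = y + δ / 3 := ⟨_, rfl⟩
  have hr'1 : 0 < r' := by linarith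
  have hr11 : r' < r1 := by linarith
  have hr12 : r1 ≤ 3 / 2 * r' := by linarith
  have hr1w : r1 < w := by linarith
  have hκr : κ * r' = 2 + κ * (δ / 8) := by
    rw [hr']
    linarith
  have hκδ : 0 < κ * (δ / 8) := by positivity
  obtain ⟨s0, ν, hs1, hs2, hν, hν1, habs⟩ := absconv Pool.Agent.H986R2.K4.sab
    Pool.Agent.H986R2.K4.ll Pool.Agent.H986R2.K4.lr Pool.Agent.H986R2.K4.tay r' r1 w
    hr'1 hr11.le hr12 hr1w hw2
  obtain ⟨K, T1, hK, hT1, hP1⟩ := Q1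
  obtain ⟨εa, η1, L0, hεa, hη1, hL0, habs⟩ := habs K 1 hK one_pos
  obtain ⟨T2, hT2, hP2⟩ := Q2 η1 hη1
  obtain ⟨T3, hT3, hP3⟩ := Q3 hy0 hG s0 ν (by linarith) (by linarith) hν hν1
  obtain ⟨T5, hT5⟩ := eventually_atTop.1 (ev_exp 2 (κ * (δ / 8)) hκδ)
  obtain ⟨T4, hT4⟩ := eventually_atTop.1
    (Om_tendsto.eventually_ge_atTop (max L0 (max (1 / (r1 - r')) (((N : ℝ) + 1) / r'))))
  obtain ⟨Kh, hKh, hHH⟩ := Pool.Agent.H986R2.K4.hh
  obtain ⟨T6, hT6, hHH⟩ := hHH 1 le_rfl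
  obtain ⟨εb, hεb, hεb1, hεb3⟩ : ∃ εb : ℝ, 0 < εb ∧ εb ≤ εa ∧ εb ≤ δ :=
    ⟨min εa δ, lt_min hεa hδ, min_le_left _ _, min_le_right _ _⟩
  obtain ⟨s, hs0, hsw, hs2', hs3⟩ := hv εb
    (max (max (max T1 T2) (max T3 T5)) (max T4 T6)) hεb
  set T : ℝ := s.im with hT
  set xp : ℝ := s.re - 1 / 2 with hxp
  have hTT1 : T1 ≤ T :=
    (((le_max_left _ _).trans (le_max_left _ _)).trans (le_max_left _ _)).trans hs3
  have hTT2 : T2 ≤ T :=
    (((le_max_right _ _).trans (le_max_left _ _)).trans (le_max_left _ _)).trans hs3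
  have hTT3 : T3 ≤ T :=
    (((le_max_left _ _).trans (le_max_right _ _)).trans (le_max_left _ _)).trans hs3
  have hTT5 : T5 ≤ T :=
    (((le_max_right _ _).trans (le_max_right _ _)).trans (le_max_left _ _)).trans hs3
  have hTT4 : T4 ≤ T := ((le_max_left _ _).trans (le_max_right _ _)).trans hs3
  have hTT6 : T6 ≤ T := ((le_max_right _ _).trans (le_max_right _ _)).trans hs3
  have hT2000 : 2000 ≤ T := hT1.trans hTT1
  have hT0 : 0 < T := by linarith
  have hOm := hT4 T hTT4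
  have hOm0 : L0 ≤ Om T := (le_max_left _ _).trans hOm
  have hOm1 : 1 / (r1 - r') ≤ Om T :=
    ((le_max_left _ _).trans (le_max_right _ _)).trans hOm
  have hOm2 : ((N : ℝ) + 1) / r' ≤ Om T :=
    ((le_max_right _ _).trans (le_max_right _ _)).trans hOm
  have hOmp : 0 < Om T := by linarith
  have hsw' := abs_le.1 hsw
  have hxp0 : 0 ≤ xp := by linarith
  have hxp1 : xp < 1 / 2 := by linarith
  obtain ⟨n, hn⟩ : ∃ n : ℕ, n = ⌈r' * Om T⌉₊ := ⟨_, rfl⟩
  have hn1 : r' * Om T ≤ n := by rw [hn]; exact Nat.le_ceil _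
  have hn2 : (n : ℝ) ≤ r1 * Om T := by
    have h1 : (n : ℝ) < r' * Om T + 1 := by
      rw [hn]; exact Nat.ceil_lt_add_one (by positivity)
    have h2 : 1 ≤ Om T * (r1 - r') := by
      rw [div_le_iff₀ (by linarith)] at hOm1
      exact hOm1
    linarith
  have hnN : (N : ℝ) + 1 ≤ n := by
    rw [div_le_iff₀ hr'1] at hOm2
    linarith
  have hnN' : N ≤ n := by
    have : (N : ℝ) ≤ n := by linarith
    exact_mod_cast this
  have hrange : T + 10 ≤ Real.exp (κ * n) := by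
    have h1 : Real.exp (κ * (r' * Om T)) ≤ Real.exp (κ * n) := by
      apply Real.exp_le_exp.2
      gcongr
    have h2 : Real.exp (κ * (r' * Om T)) = T * Real.exp (κ * (δ / 8) * Om T) := by
      have e : T = Real.exp (2 * Om T) := by
        unfold Pool.Agent.H24R2.JP.Om
        rw [mul_div_cancel₀ _ (by norm_num : (2 : ℝ) ≠ 0), Real.exp_log hT0]
      calc Real.exp (κ * (r' * Om T)) = Real.exp (2 * Om T + κ * (δ / 8) * Om T) := by
            congr 1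
            calc κ * (r' * Om T) = (κ * r') * Om T := by ring
              _ = _ := by rw [hκr]; ring
        _ = Real.exp (2 * Om T) * Real.exp (κ * (δ / 8) * Om T) := Real.exp_add _ _
        _ = _ := by rw [← e]
    have h3 := hT5 T hTT5
    have h4 : T * 2 ≤ T * Real.exp (κ * (δ / 8) * Om T) := by gcongr
    linarith
  have hH : 0 < ‖HH (I * T)‖ := by
    have h1 := (hHH T 0 hTT6 (by simp)).2.1
    rw [add_zero] at h1
    exact norm_pos_iff.2 h1
  have hzero : XX (I * T + (xp : ℂ)) = 0 := by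
    have him : 0 < (I * (T : ℂ) + (xp : ℂ)).im := by simp; exact hT0
    have e1 : (1 / 2 : ℂ) + (I * (T : ℂ) + (xp : ℂ)) = s := by
      apply Complex.ext
      · simp [hxp]
      · simp [hT]
    rw [Pool.Agent.H24R2.JP.zetaS.1 _ him, e1, hs0, mul_zero]
  refine habs (Om T) ‖HH (I * T)‖ xp n (px T) hOm0 hH hn1 hn2 (hsw.trans hεb1) hxp1.le ?_
  refine
    { diff := px_diff T
      P1 := hP1 T hTT1
      P2 := hP2 T hTT2
      P3 := hP3 T hTT3
      P4 := fun u hu _ hu3 h0 => ?_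
      P5 := ?_ }
  · rw [px_iter] at h0
    have hu3' := abs_le.1 hu3
    have h1 := hN n hnN' _ h0 (by
      have e : (I * (T : ℂ) + u).im = T + u.im := by simp
      rw [e, abs_le]
      constructor <;> linarith)
    have e : (I * (T : ℂ) + u).re = u.re := by simp
    rw [e] at h1
    linarith
  · have : px T xp = 0 := hzero
    rw [this, norm_zero]
    positivity

end Pool.Agent.U4.JD
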