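import Pool.Agent.H986R2.K4.A2
import Pool.Agent.H986R2.K4.A1
import Pool.Agent.H986R2.K4.SAB
import Pool.Agent.U4.JD.Pt
import Pool.Agent.U4.JD.Lim

set_option autoImplicit false

/-!
# Control of zeta from few zeros to the right of `θ`
-/

namespace Pool.Agent.U4.JD

open Complex Filter Topology
open Pool.Agent.H986R2.K4 (S_SAB S_A1 ZB)
open Pool.Agent.H986R2.K4.A2Aux

/-- control of zeta in a zero-free quarter plane -/
theorem a2T (h : S_SAB) (h1 : S_A1) (y : ℝ) (hy0 : 0 ≤ y) (hy1 : y ≤ 1 / 2) (t0 : ℝ)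
    (hz : ∀ s : ℂ, 1 / 2 + y < s.re → t0 ≤ s.im → riemannZeta s ≠ 0) (ε : ℝ) (hε : 0 < ε) :
    ∃ t1 : ℝ, 2 ≤ t1 ∧ ∀ s : ℂ, 1 / 2 + y + ε ≤ s.re → t1 ≤ s.im →
      riemannZeta s ≠ 0 ∧ ‖logDeriv riemannZeta s‖ ≤ ε * Real.log s.im ∧
      s.im ^ (-ε) ≤ ‖riemannZeta s‖ ∧ ‖riemannZeta s‖ ≤ s.im ^ ε := by
  obtain ⟨K, hK1, hK⟩ := Pool.Agent.H24R2.JP.zetaS.2
  obtain ⟨ε1, hε1, hS⟩ := h (min ε (1 / 4)) ε 2 (lt_min hε (by norm_num)) (min_le_right _ _) hε
    (by norm_num)
  obtain ⟨tA, htA2, hA⟩ := h1 (min (ε1 / 2) (1 / 2)) (lt_min (by linarith) (by norm_num))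
  obtain ⟨tB, htB2, hB⟩ := h1 (min ε 1) (lt_min hε (by norm_num))
  refine ⟨max (max (max (tA + 10) tB) (max 21 (3 * K))) (t0 + 10), ?_, ?_⟩
  · exact htB2.trans ((le_max_right _ _).trans ((le_max_left _ _).trans (le_max_left _ _)))
  intro s hs ht'
  have ht := (le_max_left _ _).trans ht'
  have ht00 : t0 + 10 ≤ s.im := (le_max_right _ _).trans ht'
  have ht21 : 21 ≤ s.im := (le_max_left _ _).trans ((le_max_right _ _).trans ht)
  have htK : 3 * K ≤ s.im := (le_max_right _ _).trans ((le_max_right _ _).trans ht)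
  have htA : tA + 10 ≤ s.im := (le_max_left _ _).trans ((le_max_left _ _).trans ht)
  have htB : tB ≤ s.im := (le_max_right _ _).trans ((le_max_left _ _).trans ht)
  have ht0 : 0 < s.im := by linarith
  by_cases hbig : s.re - (1 / 2 + y) ≤ 3
  · have hL : 1 ≤ Real.log s.im := by
      rw [Real.le_log_iff_exp_le ht0]
      have := Real.exp_one_lt_d9
      linarith
    set c : ℂ := ((1 / 2 + y : ℝ) : ℂ) + (s.im : ℂ) * I with hc
    have hcre : ∀ u : ℂ, (c + u).re = 1 / 2 + y + u.re := by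
      intro u
      simp [hc]
    have hcim : ∀ u : ℂ, (c + u).im = s.im + u.im := by
      intro u
      simp [hc]
    have hsc : c + ((s.re - (1 / 2 + y) : ℝ) : ℂ) = s := by
      apply Complex.ext
      · rw [hcre, Complex.ofReal_re]
        ring
      · rw [hcim, Complex.ofReal_im]
        ring
    have P1 : ∀ u : ℂ, 0 < u.re → u.re ≤ 10 → |u.im| ≤ 10 →
        DifferentiableAt ℂ (fun u => riemannZeta (c + u)) u ∧ riemannZeta (c + u) ≠ 0 ∧
          ‖riemannZeta (c + u)‖ ≤ Real.exp (2 * Real.log s.im) := by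
      intro u hu1 hu2 hu3
      have hu4 := abs_le.mp hu3
      refine ⟨?_, ?_, ?_⟩
      · have hne : c + u ≠ 1 := by
          intro he
          have := congrArg Complex.im he
          rw [hcim, Complex.one_im] at this
          linarith
        have hd := differentiableAt_riemannZeta hne
        exact hd.comp u ((differentiableAt_const c).add differentiableAt_id)
      · apply hz
        · rw [hcre]
          linarith
        · rw [hcim]
          linarith
      · rw [exp_two_log _ ht0]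
        apply zeta_up K hK1 hK
        · rw [hcre]; linarith
        · rw [hcre]; linarith
        · rw [hcim, add_sub_cancel_left]; exact hu3
        · exact ht21
        · exact htK
    have P2 : ∀ u : ℂ, 3 / 2 ≤ u.re → u.re ≤ 10 → |u.im| ≤ 10 →
        Real.exp (-(ε1 * Real.log s.im)) ≤ ‖riemannZeta (c + u)‖ ∧
          ‖riemannZeta (c + u)‖ ≤ Real.exp (ε1 * Real.log s.im) := by
      intro u hu1 hu2 hu3
      have hu4 := abs_le.mp hu3
      obtain ⟨-, -, h3, h4⟩ := hA (c + u)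
        (by rw [hcre]; have := min_le_right (ε1 / 2) (1 / 2 : ℝ); linarith)
        (by rw [hcim]; linarith)
      rw [hcim] at h3 h4
      rw [exp_mul_log _ _ ht0, exp_neg_mul_log _ _ ht0]
      have hv1 : 1 ≤ s.im + u.im := by linarith
      have hv2 : s.im + u.im ≤ s.im ^ (2 : ℝ) := by
        rw [Real.rpow_two]
        nlinarith
      have hmin := min_le_left (ε1 / 2) (1 / 2 : ℝ)
      have hpow : (s.im + u.im) ^ (ε1 / 2) ≤ s.im ^ ε1 := by
        calc (s.im + u.im) ^ (ε1 / 2) ≤ (s.im ^ (2 : ℝ)) ^ (ε1 / 2) :=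
              Real.rpow_le_rpow (by linarith) hv2 (by linarith)
          _ = s.im ^ ε1 := by
              rw [← Real.rpow_mul ht0.le]
              congr 1
              ring
      constructor
      · refine le_trans ?_ h3
        calc s.im ^ (-ε1) = (s.im ^ ε1)⁻¹ := Real.rpow_neg ht0.le _
          _ ≤ ((s.im + u.im) ^ (ε1 / 2))⁻¹ :=
              inv_anti₀ (Real.rpow_pos_of_pos (by linarith) _) hpow
          _ = (s.im + u.im) ^ (-(ε1 / 2)) := (Real.rpow_neg (by linarith) _).symm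
          _ ≤ (s.im + u.im) ^ (-(min (ε1 / 2) (1 / 2))) :=
              Real.rpow_le_rpow_of_exponent_le hv1 (by linarith)
      · refine h4.trans (le_trans ?_ hpow)
        exact Real.rpow_le_rpow_of_exponent_le hv1 hmin
    have key := hS (Real.log s.im) (fun u => riemannZeta (c + u)) hL P1 P2
      ((s.re - (1 / 2 + y) : ℝ) : ℂ)
      (by
        rw [Complex.ofReal_re]
        have := min_le_left ε (1 / 4 : ℝ)
        linarith)
      (by rw [Complex.ofReal_re]; exact hbig)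
      (by rw [Complex.ofReal_im, abs_zero]; norm_num)
    have hlog : logDeriv (fun u => riemannZeta (c + u)) ((s.re - (1 / 2 + y) : ℝ) : ℂ) =
        logDeriv riemannZeta s := by
      rw [logDeriv_apply, logDeriv_apply, deriv_comp_const_add, hsc]
    rw [hlog, exp_mul_log _ _ ht0, exp_neg_mul_log _ _ ht0] at key
    simp only [hsc] at key
    refine ⟨hz s (by linarith) (by linarith), key.1, key.2.1, key.2.2⟩
  · have hre : 1 / 2 + 1 / 2 + min ε 1 ≤ s.re := by
      have := min_le_right ε (1 : ℝ)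
      push Not at hbig
      linarith
    obtain ⟨k1, k2, k3, k4⟩ := hB s hre htB
    have hmin := min_le_left ε (1 : ℝ)
    have hlog0 : 0 ≤ Real.log s.im := Real.log_nonneg (by linarith)
    refine ⟨k1, k2.trans (mul_le_mul_of_nonneg_right hmin hlog0), ?_, ?_⟩
    · exact (Real.rpow_le_rpow_of_exponent_le (by linarith) (by linarith)).trans k3
    · exact k4.trans (Real.rpow_le_rpow_of_exponent_le (by linarith) hmin)

theorem zb_of_edge {y : ℝ} (hy0 : 0 ≤ y) (h : Edge (1 / 2 + y)) : ZB y := by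
  intro ε hε
  obtain ⟨t0, ht0⟩ := of_edge h (ε / 2) (by positivity)
  obtain ⟨t1, ht1, h1⟩ : ∃ t1 : ℝ, 2 ≤ t1 ∧ ∀ s : ℂ, 1 / 2 + (y + ε / 2) + ε / 2 ≤ s.re →
      t1 ≤ s.im → riemannZeta s ≠ 0 ∧ ‖logDeriv riemannZeta s‖ ≤ ε / 2 * Real.log s.im ∧
      s.im ^ (-(ε / 2)) ≤ ‖riemannZeta s‖ ∧ ‖riemannZeta s‖ ≤ s.im ^ (ε / 2) := by
    rcases le_or_gt (y + ε / 2) (1 / 2) with hy | hy
    · exact a2T Pool.Agent.H986R2.K4.sab Pool.Agent.H986R2.K4.a1 (y + ε / 2)
        (by positivity) hy t0 (by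
          intro s hs1 hs2 hs0
          have := ht0 s hs0 (by linarith)
          linarith) (ε / 2) (by positivity)
    · obtain ⟨t1, ht1, h1⟩ := Pool.Agent.H986R2.K4.a1 (ε / 2) (by positivity)
      exact ⟨t1, ht1, fun s hs1 hs2 => h1 s (by linarith) hs2⟩
  refine ⟨t1, ht1, fun s hs1 hs2 => ?_⟩
  obtain ⟨a1, a2, a3, a4⟩ := h1 s (by linarith) hs2
  have h3 : 1 ≤ s.im := by linarith
  refine ⟨a1, a2.trans ?_, le_trans ?_ a3, a4.trans ?_⟩
  · have := Real.log_nonneg h3
    gcongr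
    linarith
  · exact Real.rpow_le_rpow_of_exponent_le h3 (by linarith)
  · exact Real.rpow_le_rpow_of_exponent_le h3 (by linarith)

theorem lind_of_zb {y : ℝ} (h : ZB y) : Lind (1 / 2 + y) := by
  intro σ ε hσ hε
  obtain ⟨e, he, he1, he2⟩ : ∃ e : ℝ, 0 < e ∧ e ≤ σ - (1 / 2 + y) ∧ e ≤ ε :=
    ⟨min (σ - (1 / 2 + y)) ε, lt_min (by linarith) hε, min_le_left _ _, min_le_right _ _⟩
  obtain ⟨t1, ht1, h1⟩ := h e he
  -- compactness for small heights
  have hcont : ContinuousOn (fun t : ℝ => riemannZeta ((σ : ℂ) + t * I)) (Set.Icc 1 t1) := by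
    intro t ht
    have hne : (σ : ℂ) + t * I ≠ 1 := by
      intro h0
      have h2 := congrArg Complex.im h0
      simp at h2
      have := ht.1
      linarith
    have h3 := (differentiableAt_riemannZeta hne).continuousAt
    have h4 : ContinuousAt (fun t : ℝ => (σ : ℂ) + t * I) t := by fun_prop
    exact (ContinuousAt.comp (f := fun t : ℝ => (σ : ℂ) + t * I) (x := t) h3 h4).continuousWithinAt
  obtain ⟨B, hB⟩ := (isCompact_Icc.image_of_continuousOn hcont.norm).bddAbove
  refine ⟨max B 1, fun t ht => ?_⟩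
  have h2 : 1 ≤ t ^ ε := Real.one_le_rpow ht hε.le
  have h3 : 1 ≤ max B 1 := le_max_right _ _
  rcases le_or_gt t1 t with h4 | h4
  · obtain ⟨-, -, -, a4⟩ := h1 ((σ : ℂ) + t * I) (by simp; linarith) (by simpa using h4)
    have e1 : ((σ : ℂ) + t * I).im = t := by simp
    rw [e1] at a4
    calc ‖riemannZeta ((σ : ℂ) + t * I)‖ ≤ t ^ e := a4
      _ ≤ t ^ ε := Real.rpow_le_rpow_of_exponent_le ht he2
      _ = 1 * t ^ ε := (one_mul _).symm
      _ ≤ max B 1 * t ^ ε := by gcongr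
  · have h5 : ‖riemannZeta ((σ : ℂ) + t * I)‖ ≤ B := hB ⟨t, ⟨ht, h4.le⟩, rfl⟩
    calc ‖riemannZeta ((σ : ℂ) + t * I)‖ ≤ max B 1 := h5.trans (le_max_left _ _)
      _ = max B 1 * 1 := (mul_one _).symm
      _ ≤ max B 1 * t ^ ε := by gcongr

end Pool.Agent.U4.JD
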