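import Pool.Agent.U4.JC.Abs

set_option autoImplicit false

/-!
# Abstract converse, for all `n / L` in a compact subset of `(0, 1/2]`
-/

namespace Pool.Agent.U4.JD

open Complex Filter Topology MeasureTheory Set
open Pool.Agent.H986R2.K4 (S_SAB S_LL S_LR S_TAY)
open Pool.Agent.U4.JC (growE le_fact fact_le ub diff_iter)

/-- The data of the abstract converse: growth `e^((s + ν) L)` in the strip `|Re u| ≤ s`. -/
structure Dat (K s ν η1 ε4 L H w xp : ℝ) (n : ℕ) (p : ℂ → ℂ) : Prop where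
  diff : Differentiable ℂ p
  P1 : ∀ u : ℂ, |u.re| ≤ 11 → |u.im| ≤ 11 → ‖p u‖ ≤ Real.exp (K * L) * H
  P2 : ∀ u : ℂ, 3 / 4 ≤ u.re → u.re ≤ 11 → |u.im| ≤ 11 → p u ≠ 0 ∧
    ‖logDeriv p u - (L : ℂ)‖ ≤ η1 * L ∧ Real.exp ((u.re - η1) * L) * H ≤ ‖p u‖ ∧
    ‖p u‖ ≤ Real.exp ((u.re + η1) * L) * H
  P3 : ∀ u : ℂ, |u.re| ≤ s → |u.im| ≤ 1 → ‖p u‖ ≤ Real.exp ((s + ν) * L) * H
  P4 : ∀ u : ℂ, 0 < u.re → u.re ≤ 10 → |u.im| ≤ 10 → iteratedDeriv n p u ≠ 0
  P5 : ‖p xp‖ ≤ Real.exp ((w - ε4) * L) * H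

theorem rg (hLL : S_LL) (r0 ε : ℝ) (hr00 : 0 < r0) (hε : 0 < ε) : ∃ η1 L0 : ℝ, 0 < η1 ∧ 1 ≤ L0 ∧
    ∀ (L H : ℝ) (n : ℕ) (p : ℂ → ℂ), L0 ≤ L → 0 < H → r0 * L ≤ n → (n : ℝ) ≤ 1 / 2 * L →
    Differentiable ℂ p →
    (∀ u : ℂ, 3 / 4 ≤ u.re → u.re ≤ 11 → |u.im| ≤ 11 → p u ≠ 0 ∧
      ‖logDeriv p u - (L : ℂ)‖ ≤ η1 * L ∧ Real.exp ((u.re - η1) * L) * H ≤ ‖p u‖ ∧
      ‖p u‖ ≤ Real.exp ((u.re + η1) * L) * H) →
    ∀ u : ℂ, 3 / 2 ≤ u.re → u.re ≤ 10 → |u.im| ≤ 10 →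
      Real.exp (-(ε * L)) * (L ^ n * (Real.exp (L * u.re) * H)) ≤ ‖iteratedDeriv n p u‖ ∧
      ‖iteratedDeriv n p u‖ ≤ Real.exp (ε * L) * (L ^ n * (Real.exp (L * u.re) * H)) := by
  obtain ⟨η, n0, hη, hn0, hLL⟩ := hLL (ε / 4) (by positivity)
  obtain ⟨L1, hL11, hL1⟩ := growE (ε / 4) (Real.exp 1) (by positivity)
  refine ⟨min η (ε / 4), max L1 ((n0 + 1) / r0), lt_min hη (by positivity),
    le_trans hL11 (le_max_left _ _), ?_⟩
  intro L H n p hL hH hn1 hn2 hd P2 u hu1 hu2 hu3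
  have hLL1 : L1 ≤ L := le_trans (le_max_left _ _) hL
  have hLn0 : ((n0 : ℝ) + 1) / r0 ≤ L := le_trans (le_max_right _ _) hL
  have hLpos : 0 < L := by linarith
  have hnn0 : n0 ≤ n := by
    rw [div_le_iff₀ hr00] at hLn0
    have : (n0 : ℝ) ≤ n := by linarith
    exact_mod_cast this
  have hn1' : 1 ≤ n := le_trans hn0 hnn0
  have hnpos : (0 : ℝ) < n := by exact_mod_cast hn1'
  set r : ℝ := n / L with hr
  have hrL : r * L = n := by rw [hr]; field_simp
  have hr0 : 0 < r := by positivity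
  have hr12 : r ≤ 1 / 2 := by rw [hr, div_le_iff₀ hLpos]; exact hn2
  set F : ℂ → ℂ := fun w => p (u + (r : ℂ) * w) with hF
  have hu3' := abs_le.1 hu3
  have hball : ∀ w ∈ Metric.ball (0 : ℂ) (3 / 2), DifferentiableAt ℂ F w ∧ F w ≠ 0 ∧
      ‖logDeriv F w - n‖ ≤ η * n := by
    intro w hw
    rw [mem_ball_zero_iff] at hw
    have h1 : ‖(r : ℂ) * w‖ ≤ 3 / 4 := by
      rw [norm_mul, Complex.norm_real, Real.norm_eq_abs, abs_of_pos hr0]
      calc r * ‖w‖ ≤ 1 / 2 * (3 / 2) := by gcongr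
        _ = 3 / 4 := by norm_num
    have h2 := abs_le.1 ((abs_re_le_norm ((r : ℂ) * w)).trans h1)
    have h3 := abs_le.1 ((abs_im_le_norm ((r : ℂ) * w)).trans h1)
    obtain ⟨a1, a2, -, -⟩ := P2 (u + (r : ℂ) * w) (by rw [add_re]; linarith)
      (by rw [add_re]; linarith) (by rw [add_im, abs_le]; constructor <;> linarith)
    have hder : HasDerivAt F (deriv p (u + (r : ℂ) * w) * r) w := by
      have e1 : HasDerivAt (fun z : ℂ => u + (r : ℂ) * z) (r : ℂ) w := by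
        have := ((hasDerivAt_id w).const_mul (r : ℂ)).const_add u
        simpa using this
      exact (hd (u + (r : ℂ) * w)).hasDerivAt.comp w e1
    refine ⟨hder.differentiableAt, a1, ?_⟩
    have e2 : logDeriv F w - n = r * (logDeriv p (u + (r : ℂ) * w) - L) := by
      rw [logDeriv_apply, logDeriv_apply, hder.deriv]
      have e3 : (n : ℂ) = (r : ℂ) * (L : ℂ) := by
        rw [← Complex.ofReal_mul, hrL]
        simp
      rw [e3]
      show deriv p (u + r * w) * r / p (u + r * w) - r * L = _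
      ring
    rw [e2, norm_mul, Complex.norm_real, Real.norm_eq_abs, abs_of_pos hr0]
    calc r * ‖logDeriv p (u + (r : ℂ) * w) - L‖ ≤ r * (min η (ε / 4) * L) := by gcongr
      _ = min η (ε / 4) * n := by rw [← hrL]; ring
      _ ≤ η * n := by gcongr; exact min_le_left _ _
  have hmain := hLL n 0 F hnn0 hball
  have hF0 : F 0 = p u := by rw [hF]; simp
  have hcd : ContDiff ℂ n (fun z => p (u + z)) := by
    have : Differentiable ℂ (fun z => p (u + z)) := hd.comp (by fun_prop)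
    exact this.contDiff
  have hFn : iteratedDeriv n F 0 = (r : ℂ) ^ n * iteratedDeriv n p u := by
    have e1 := iteratedDeriv_comp_const_mul hcd (r : ℂ)
    have e2 : F = fun x => (fun z => p (u + z)) ((r : ℂ) * x) := rfl
    rw [e2, e1]
    simp only [mul_zero]
    rw [iteratedDeriv_comp_const_add]
    simp
  rw [hF0, hFn, norm_mul, norm_pow, Complex.norm_real, Real.norm_eq_abs, abs_of_pos hr0] at hmain
  obtain ⟨-, -, b1, b2⟩ := P2 u (by linarith) (by linarith) (by linarith)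
  have hrn : r ^ n = (n : ℝ) ^ n / L ^ n := by rw [hr, div_pow]
  have hnn : (0 : ℝ) < (n : ℝ) ^ n := by positivity
  have hLn : 0 < L ^ n := by positivity
  have hfl := le_fact n
  have hfu := fact_le n hn1'
  have hexp1 : Real.exp ((1 - ε / 4) * n) = Real.exp n * Real.exp (-(ε / 4 * n)) := by
    rw [← Real.exp_add]; congr 1; ring
  have hexp2 : Real.exp ((1 + ε / 4) * n) = Real.exp n * Real.exp (ε / 4 * n) := by
    rw [← Real.exp_add]; congr 1; ring
  have hnL : (n : ℝ) ≤ L := by linarith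
  have hen : Real.exp (ε / 4 * n) ≤ Real.exp (ε / 4 * L) := by
    apply Real.exp_le_exp.2; gcongr
  have hen' : Real.exp (-(ε / 4 * L)) ≤ Real.exp (-(ε / 4 * n)) := by
    apply Real.exp_le_exp.2
    have : ε / 4 * n ≤ ε / 4 * L := by gcongr
    linarith
  have hfac0 : (0 : ℝ) < n.factorial := by exact_mod_cast Nat.factorial_pos n
  have hmin : min η (ε / 4) ≤ ε / 4 := min_le_right _ _
  set Dn : ℝ := ‖iteratedDeriv n p u‖ with hDn
  have hc1 : Real.exp (-(ε / 4 * L)) * (Real.exp (L * u.re) * H) ≤ ‖p u‖ := by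
    refine le_trans ?_ b1
    rw [← mul_assoc, ← Real.exp_add]
    have : -(ε / 4 * L) + L * u.re ≤ (u.re - min η (ε / 4)) * L := by nlinarith
    gcongr
  have hc2 : ‖p u‖ ≤ Real.exp (ε / 4 * L) * (Real.exp (L * u.re) * H) := by
    refine le_trans b2 ?_
    rw [← mul_assoc, ← Real.exp_add]
    have : (u.re + min η (ε / 4)) * L ≤ ε / 4 * L + L * u.re := by nlinarith
    gcongr
  constructor
  · have g1 := hmain.1
    rw [hexp1, hrn] at g1
    have g2 : (n : ℝ) ^ n * (Real.exp (-(ε / 4 * L)) * (Real.exp (-(ε / 4 * L)) *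
        (Real.exp (L * u.re) * H))) ≤ (n : ℝ) ^ n / L ^ n * Dn := by
      refine le_trans ?_ g1
      calc (n : ℝ) ^ n * (Real.exp (-(ε / 4 * L)) * (Real.exp (-(ε / 4 * L)) *
            (Real.exp (L * u.re) * H)))
          ≤ (n.factorial * Real.exp n) * (Real.exp (-(ε / 4 * n)) * ‖p u‖) := by gcongr
        _ = _ := by ring
    have e1 : (n : ℝ) ^ n / L ^ n * Dn = (n : ℝ) ^ n * (Dn / L ^ n) := by ring
    rw [e1] at g2
    have g3 := le_of_mul_le_mul_left g2 hnn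
    rw [le_div_iff₀ hLn] at g3
    refine le_trans ?_ g3
    have e2 : Real.exp (-(ε / 4 * L)) * (Real.exp (-(ε / 4 * L)) * (Real.exp (L * u.re) * H)) *
        L ^ n = (Real.exp (-(ε / 4 * L)) * Real.exp (-(ε / 4 * L))) *
          (L ^ n * (Real.exp (L * u.re) * H)) := by ring
    rw [e2, ← Real.exp_add]
    have : -(ε * L) ≤ -(ε / 4 * L) + -(ε / 4 * L) := by nlinarith
    gcongr
  · have g1 := hmain.2
    rw [hexp2, hrn] at g1
    have hL1' := (hL1 L hLL1).le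
    have g2 : (n : ℝ) ^ n / L ^ n * Dn ≤ (n : ℝ) ^ n * (Real.exp (ε / 4 * L) *
        (Real.exp (ε / 4 * L) * (Real.exp (ε / 4 * L) * (Real.exp (L * u.re) * H)))) := by
      refine le_trans g1 ?_
      have hel : Real.exp 1 * n ≤ Real.exp (ε / 4 * L) := by
        refine le_trans ?_ hL1'
        gcongr
      calc Real.exp n * Real.exp (ε / 4 * n) * (n.factorial * ‖p u‖)
          = (n.factorial * Real.exp n) * (Real.exp (ε / 4 * n) * ‖p u‖) := by ring
        _ ≤ (Real.exp 1 * n * (n : ℝ) ^ n) * (Real.exp (ε / 4 * L) *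
            (Real.exp (ε / 4 * L) * (Real.exp (L * u.re) * H))) := by gcongr
        _ ≤ (Real.exp (ε / 4 * L) * (n : ℝ) ^ n) * (Real.exp (ε / 4 * L) *
            (Real.exp (ε / 4 * L) * (Real.exp (L * u.re) * H))) := by gcongr
        _ = _ := by ring
    have e1 : (n : ℝ) ^ n / L ^ n * Dn = (n : ℝ) ^ n * (Dn / L ^ n) := by ring
    rw [e1] at g2
    have g3 := le_of_mul_le_mul_left g2 hnn
    rw [div_le_iff₀ hLn] at g3
    refine le_trans g3 ?_
    have e2 : Real.exp (ε / 4 * L) * (Real.exp (ε / 4 * L) * (Real.exp (ε / 4 * L) *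
        (Real.exp (L * u.re) * H))) * L ^ n =
        (Real.exp (ε / 4 * L) * (Real.exp (ε / 4 * L) * Real.exp (ε / 4 * L))) *
          (L ^ n * (Real.exp (L * u.re) * H)) := by ring
    rw [e2, ← Real.exp_add, ← Real.exp_add]
    have : ε / 4 * L + (ε / 4 * L + ε / 4 * L) ≤ ε * L := by nlinarith
    gcongr

theorem gr (hS : S_SAB) (hLL : S_LL) (r0 K η0 η : ℝ) (hr00 : 0 < r0) (hK : 1 ≤ K) (hη0 : 0 < η0)
    (hη0' : η0 ≤ 1 / 4) (hη : 0 < η) : ∃ η1 L0 : ℝ, 0 < η1 ∧ 1 ≤ L0 ∧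
    ∀ (L H : ℝ) (n : ℕ) (p : ℂ → ℂ), L0 ≤ L → 0 < H → r0 * L ≤ n → (n : ℝ) ≤ 1 / 2 * L →
    Differentiable ℂ p →
    (∀ u : ℂ, |u.re| ≤ 11 → |u.im| ≤ 11 → ‖p u‖ ≤ Real.exp (K * L) * H) →
    (∀ u : ℂ, 3 / 4 ≤ u.re → u.re ≤ 11 → |u.im| ≤ 11 → p u ≠ 0 ∧
      ‖logDeriv p u - (L : ℂ)‖ ≤ η1 * L ∧ Real.exp ((u.re - η1) * L) * H ≤ ‖p u‖ ∧
      ‖p u‖ ≤ Real.exp ((u.re + η1) * L) * H) →
    (∀ u : ℂ, 0 < u.re → u.re ≤ 10 → |u.im| ≤ 10 → iteratedDeriv n p u ≠ 0) →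
    ∀ u : ℂ, η0 ≤ u.re → u.re ≤ 3 → |u.im| ≤ 3 →
      iteratedDeriv n p u ≠ 0 ∧ ‖logDeriv (iteratedDeriv n p) u - (L : ℂ)‖ ≤ η * L ∧
      Real.exp (-(η * L)) * (L ^ n * (Real.exp (L * u.re) * H)) ≤ ‖iteratedDeriv n p u‖ := by
  obtain ⟨ε, hε, hS⟩ := hS η0 η K hη0 hη0' hη (by linarith)
  obtain ⟨η1, L1, hη1, hL1, hRG⟩ := rg hLL r0 ε hr00 hε
  refine ⟨η1, max L1 3, hη1, le_trans hL1 (le_max_left _ _), ?_⟩
  intro L H n p hL hH hn1 hn2 hd P1 P2 P4 u hu1 hu2 hu3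
  have hLL1 : L1 ≤ L := le_trans (le_max_left _ _) hL
  have hL3 : 3 ≤ L := le_trans (le_max_right _ _) hL
  have hLpos : 0 < L := by linarith
  have hnpos : 1 ≤ n := by
    have h0 : 0 < r0 * L := by positivity
    have : (0 : ℝ) < n := by linarith
    exact_mod_cast this
  have hRG' := hRG L H n p hLL1 hH hn1 hn2 hd P2
  set F := iteratedDeriv n p with hF
  have hFd : Differentiable ℂ F := diff_iter hd n
  have hLn : 0 < L ^ n := by positivity
  set c : ℂ := ((L ^ n * H : ℝ) : ℂ) with hc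
  have hc0 : c ≠ 0 := by
    rw [hc]
    exact_mod_cast (by positivity : L ^ n * H ≠ 0)
  have hcn : ‖c‖ = L ^ n * H := by
    rw [hc, Complex.norm_real, Real.norm_of_nonneg (by positivity)]
  set g : ℂ → ℂ := fun v => F v / (c * cexp (L * v)) with hg
  have hgn : ∀ v : ℂ, ‖g v‖ = ‖F v‖ / (L ^ n * (Real.exp (L * v.re) * H)) := by
    intro v
    rw [hg]
    simp only
    rw [norm_div, norm_mul, hcn, Complex.norm_exp]
    congr 1
    have : ((L : ℂ) * v).re = L * v.re := by simp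
    rw [this]
    ring
  have hed : ∀ v : ℂ, HasDerivAt (fun v : ℂ => c * cexp (L * v)) (c * (cexp (L * v) * L)) v := by
    intro v
    have h1 : HasDerivAt (fun v : ℂ => (L : ℂ) * v) (L : ℂ) v := by
      simpa using (hasDerivAt_id v).const_mul (L : ℂ)
    exact (h1.cexp).const_mul c
  have hpos : ∀ v : ℂ, 0 < L ^ n * (Real.exp (L * v.re) * H) := fun v => by positivity
  have key := hS L g (by linarith) ?_ ?_
  · obtain ⟨k1, k2, k3⟩ := key u hu1 hu2 hu3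
    have hFu := P4 u (by linarith) (by linarith) (by linarith)
    refine ⟨hFu, ?_, ?_⟩
    · have e1 : logDeriv g u = logDeriv F u - (L : ℂ) := by
        have hne : c * cexp (L * u) ≠ 0 := mul_ne_zero hc0 (Complex.exp_ne_zero _)
        have h1 : HasDerivAt g ((deriv F u * (c * cexp (L * u)) - F u * (c * (cexp (L * u) * L))) /
            (c * cexp (L * u)) ^ 2) u := (hFd u).hasDerivAt.div (hed u) hne
        rw [logDeriv_apply, h1.deriv, logDeriv_apply]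
        have he : cexp (L * u) ≠ 0 := Complex.exp_ne_zero _
        show (deriv F u * (c * cexp (L * u)) - F u * (c * (cexp (L * u) * L))) /
            (c * cexp (L * u)) ^ 2 / (F u / (c * cexp (L * u))) = _
        field_simp
      rw [← e1]
      exact k1
    · rw [hgn, le_div_iff₀ (hpos u)] at k2
      exact k2
  · intro v hv1 hv2 hv3
    have hFv := P4 v hv1 hv2 hv3
    refine ⟨?_, ?_, ?_⟩
    · exact (hFd v).div (hed v).differentiableAt (mul_ne_zero hc0 (Complex.exp_ne_zero _))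
    · exact div_ne_zero hFv (mul_ne_zero hc0 (Complex.exp_ne_zero _))
    · rw [hgn, div_le_iff₀ (hpos v)]
      have h1 := ub hd hLpos hH hnpos (by linarith) P1 v (by rw [abs_of_pos hv1]; exact hv2) hv3
      refine h1.trans ?_
      have h2 : 1 ≤ Real.exp (L * v.re) := Real.one_le_exp (by positivity)
      have h3 : 0 < Real.exp (K * L) := Real.exp_pos _
      calc L ^ n * (Real.exp (K * L) * H) = Real.exp (K * L) * (L ^ n * (1 * H)) := by ring
        _ ≤ Real.exp (K * L) * (L ^ n * (Real.exp (L * v.re) * H)) := by gcongr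
  · intro v hv1 hv2 hv3
    obtain ⟨c1, c2⟩ := hRG' v hv1 hv2 hv3
    rw [hgn, le_div_iff₀ (hpos v), div_le_iff₀ (hpos v)]
    exact ⟨c1, c2⟩

end Pool.Agent.U4.JD
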