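import Pool.Agent.U4.JD.Low

set_option autoImplicit false

/-!
# Abstract converse: the conclusion
-/

namespace Pool.Agent.U4.JD

open Complex Filter Topology MeasureTheory Set
open Pool.Agent.H986R2.K4 (S_SAB S_LL S_LR S_TAY)
open Pool.Agent.U4.JC (growE)

/-- `v ↦ v - 1 - log v` is increasing on `[1, ∞)` -/
theorem log_mono {v v0 : ℝ} (h0 : 1 ≤ v0) (h : v0 ≤ v) :
    v0 - 1 - Real.log v0 ≤ v - 1 - Real.log v := by
  have hv0 : 0 < v0 := by linarith
  have hv : 0 < v := by linarith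
  have h1 := Real.log_le_sub_one_of_pos (div_pos hv hv0)
  rw [Real.log_div hv.ne' hv0.ne'] at h1
  have h2 : v / v0 - 1 ≤ v - v0 := by
    rw [div_sub_one hv0.ne', div_le_iff₀ hv0]
    nlinarith
  linarith

/-- **The abstract converse.** -/
theorem absconv (hS : S_SAB) (hLL : S_LL) (hLR : S_LR) (hT : S_TAY) (r' r1 w : ℝ)
    (h1 : 0 < r') (h2 : r' ≤ r1) (h2' : r1 ≤ 3 / 2 * r') (h3 : r1 < w) (hw : w ≤ 1 / 2) :
    ∃ s ν : ℝ, r1 < s ∧ s < w ∧ 0 < ν ∧ ν ≤ 1 / 8 ∧ ∀ K ε4 : ℝ, 1 ≤ K → 0 < ε4 →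
    ∃ ε η1 L0 : ℝ, 0 < ε ∧ 0 < η1 ∧ 1 ≤ L0 ∧ ∀ (L H xp : ℝ) (n : ℕ) (p : ℂ → ℂ), L0 ≤ L → 0 < H →
      r' * L ≤ n → (n : ℝ) ≤ r1 * L → |xp - w| ≤ ε → xp ≤ 1 / 2 →
      ¬ Dat K s ν η1 ε4 L H w xp n p := by
  have hr1 : 0 < r1 := by linarith
  obtain ⟨g, hg⟩ : ∃ g : ℝ, g = w - r1 := ⟨_, rfl⟩
  have hg0 : 0 < g := by linarith
  have hg1 : g ≤ 1 / 2 := by linarith
  obtain ⟨a, ha⟩ : ∃ a : ℝ, a = max (g / 8) (w - 50 * r1) := ⟨_, rfl⟩
  have ha1 : g / 8 ≤ a := by rw [ha]; exact le_max_left _ _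
  have ha2 : w - 50 * r1 ≤ a := by rw [ha]; exact le_max_right _ _
  have ha3 : a < g := by
    rw [ha]
    exact max_lt (by linarith) (by linarith)
  obtain ⟨c1, hc1⟩ : ∃ c1 : ℝ, c1 = min (3 / 4 * g) (48 * r1) := ⟨_, rfl⟩
  have hc10 : 0 < c1 := by rw [hc1]; exact lt_min (by positivity) (by positivity)
  have hc1a : c1 ≤ 3 / 4 * g := by rw [hc1]; exact min_le_left _ _
  have hc1b : c1 ≤ 48 * r1 := by rw [hc1]; exact min_le_right _ _
  -- `w - a ≥ r1 + c1` with room
  have hwa : r1 + c1 + min (g / 8) r1 ≤ w - a := by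
    have h4 : a ≤ w - (r1 + c1 + min (g / 8) r1) := by
      rw [ha]
      refine max_le ?_ ?_
      · have := min_le_left (g / 8) r1
        linarith
      · have := min_le_right (g / 8) r1
        linarith
    linarith
  obtain ⟨v0, hv0⟩ : ∃ v0 : ℝ, v0 = 1 + c1 / r1 := ⟨_, rfl⟩
  have hc1r : 0 < c1 / r1 := by positivity
  have hv01 : 1 < v0 := by linarith
  obtain ⟨m0, hm0⟩ : ∃ m0 : ℝ, m0 = r1 * (v0 - 1 - Real.log v0) := ⟨_, rfl⟩
  have hm0p : 0 < m0 := by
    rw [hm0]
    have := Real.log_lt_sub_one_of_pos (by linarith : 0 < v0) (by linarith : v0 ≠ 1)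
    have h5 : 0 < v0 - 1 - Real.log v0 := by linarith
    positivity
  refine ⟨a + r1, min (m0 / 4) (1 / 8), by linarith, by linarith, lt_min (by positivity) (by norm_num),
    min_le_right _ _, ?_⟩
  intro K ε4 hK hε4
  obtain ⟨ε, hε, hε1, hε2, hε3⟩ : ∃ ε : ℝ, 0 < ε ∧ ε ≤ m0 / 32 ∧ ε ≤ ε4 / 16 ∧
      ε ≤ min (g / 8) r1 :=
    ⟨min (min (m0 / 32) (ε4 / 16)) (min (g / 8) r1),
      lt_min (lt_min (by positivity) (by positivity)) (lt_min (by positivity) hr1),
      (min_le_left _ _).trans (min_le_left _ _), (min_le_left _ _).trans (min_le_right _ _),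
      min_le_right _ _⟩
  have hε4' : ε ≤ g / 8 := hε3.trans (min_le_left _ _)
  have hε5 : ε ≤ r1 := hε3.trans (min_le_right _ _)
  obtain ⟨η1, L1, hη1, hL1, hlow⟩ := low hS hLL hLR K r' r1 (c1 / r1) hK h1 h2 (by linarith) hc1r
    (g / 16) ε (by positivity) (by linarith) hε
  obtain ⟨L2, hL21, hL2⟩ := growE (m0 / 2) (2 * Real.exp 1) (by positivity)
  obtain ⟨L3, hL31, hL3⟩ := growE (ε4 / 2) (2 * Real.exp 1) (by positivity)
  refine ⟨ε, η1, max L1 (max L2 (max L3 3)), hε, hη1, le_trans hL1 (le_max_left _ _), ?_⟩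
  intro L H xp n p hL hH hn1 hn2 hxp hxp3 hD
  have hLL1 : L1 ≤ L := le_trans (le_max_left _ _) hL
  have hLL2 : L2 ≤ L := le_trans (le_trans (le_max_left _ _) (le_max_right _ _)) hL
  have hLL3 : L3 ≤ L :=
    le_trans (le_trans (le_trans (le_max_left _ _) (le_max_right _ _)) (le_max_right _ _)) hL
  have hL3' : 3 ≤ L :=
    le_trans (le_trans (le_trans (le_max_right _ _) (le_max_right _ _)) (le_max_right _ _)) hL
  have hLpos : 0 < L := by linarith
  have hxp' := abs_le.1 hxp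
  obtain ⟨x, hx⟩ : ∃ x : ℝ, x = xp - a := ⟨_, rfl⟩
  have hxc : r1 + c1 ≤ x := by linarith
  have hx100 : x ≤ 51 * r1 := by linarith
  have hlow := hlow L H n p xp x hLL1 hH hn1 hn2 hD.diff hD.P1 hD.P2 hD.P4
    (by
      have : (1 + c1 / r1) * r1 = r1 + c1 := by field_simp
      rw [this]; exact hxc)
    (by linarith) (by linarith) hxp3
  have hx0 : 0 < x := by linarith
  have hn1' : 1 ≤ n := by
    have h0 : 0 < r' * L := by positivity
    have : (0 : ℝ) < n := by linarith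
    exact_mod_cast this
  set M : ℝ := Real.exp ((a + r1 + min (m0 / 4) (1 / 8)) * L) * H with hM
  have hMp : 0 ≤ M := by rw [hM]; positivity
  have htay := hT p (xp : ℂ) x r1 M n hD.diff hn1' hr1 (by linarith) (by
    intro z hz
    have hz' : ‖z - ((xp - x : ℝ) : ℂ)‖ ≤ r1 := by
      have : dist z ((xp : ℂ) - (x : ℂ)) ≤ r1 := hz
      rw [dist_eq_norm] at this
      simpa using this
    have a1 := (abs_re_le_norm (z - ((xp - x : ℝ) : ℂ))).trans hz'
    have a2 := (abs_im_le_norm (z - ((xp - x : ℝ) : ℂ))).trans hz'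
    rw [sub_re, ofReal_re] at a1
    rw [sub_im, ofReal_im, sub_zero] at a2
    have a1' := abs_le.1 a1
    refine hD.P3 z ?_ (a2.trans (by linarith))
    rw [abs_le]
    constructor
    · linarith
    · linarith)
  have hfin : Real.exp (-(2 * ε * L)) * (Real.exp (L * xp - 1) * H) ≤
      ‖p xp‖ + n * (x / r1) ^ n * M := by
    refine hlow.trans ?_
    have h5 := norm_sub_norm_le (∫ v in (0 : ℝ)..x, iteratedDeriv n p ((xp : ℂ) - v) *
      ((v : ℂ) ^ (n - 1) / ((n - 1).factorial : ℂ))) (p xp)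
    rw [norm_sub_rev] at h5
    linarith
  -- numerics
  have hv1 : 1 ≤ x / r1 := by rw [le_div_iff₀ hr1]; linarith
  have hv : v0 ≤ x / r1 := by
    rw [hv0, le_div_iff₀ hr1]
    have : (1 + c1 / r1) * r1 = r1 + c1 := by field_simp
    rw [this]; exact hxc
  have hlogv := log_mono hv01.le hv
  have hxρ : (x / r1) ^ n ≤ Real.exp ((x - r1 - m0) * L) := by
    have e1 : (x / r1) ^ n = Real.exp (n * Real.log (x / r1)) := by
      rw [← Real.log_pow, Real.exp_log (by positivity)]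
    rw [e1]
    apply Real.exp_le_exp.2
    have h4 : 0 ≤ Real.log (x / r1) := Real.log_nonneg hv1
    have h5 : (n : ℝ) * Real.log (x / r1) ≤ r1 * L * Real.log (x / r1) := by gcongr
    have h6 : r1 * Real.log (x / r1) ≤ x - r1 - m0 := by
      have h7 : Real.log (x / r1) ≤ x / r1 - 1 - (v0 - 1 - Real.log v0) := by linarith
      calc r1 * Real.log (x / r1) ≤ r1 * (x / r1 - 1 - (v0 - 1 - Real.log v0)) := by gcongr
        _ = x - r1 - m0 := by rw [hm0]; field_simp
    calc (n : ℝ) * Real.log (x / r1) ≤ r1 * L * Real.log (x / r1) := h5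
      _ = r1 * Real.log (x / r1) * L := by ring
      _ ≤ (x - r1 - m0) * L := by gcongr
  have hup : (n : ℝ) * (x / r1) ^ n * M ≤ L * Real.exp ((w + ε - 3 / 4 * m0) * L) * H := by
    have hnL : (n : ℝ) ≤ L := by
      have : r1 * L ≤ 1 * L := by gcongr; linarith
      linarith
    have hx0 : 0 ≤ (x / r1) ^ n := by positivity
    calc (n : ℝ) * (x / r1) ^ n * M ≤ L * Real.exp ((x - r1 - m0) * L) * M := by gcongr
      _ = L * (Real.exp ((x - r1 - m0) * L) *
            Real.exp ((a + r1 + min (m0 / 4) (1 / 8)) * L)) * H := by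
          rw [hM]; ring
      _ = L * Real.exp ((x - r1 - m0 + (a + r1 + min (m0 / 4) (1 / 8))) * L) * H := by
          rw [← Real.exp_add]
          congr 3
          ring
      _ ≤ _ := by
          have h8 := min_le_left (m0 / 4) (1 / 8 : ℝ)
          have h9 : x - r1 - m0 + (a + r1 + min (m0 / 4) (1 / 8)) ≤ w + ε - 3 / 4 * m0 := by
            linarith
          gcongr
  have hP5 := hD.P5
  have hall : Real.exp (-(2 * ε * L)) * (Real.exp (L * xp - 1) * H) ≤
      (Real.exp ((w - ε4) * L) + L * Real.exp ((w + ε - 3 / 4 * m0) * L)) * H := by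
    calc _ ≤ _ := hfin
      _ ≤ Real.exp ((w - ε4) * L) * H + L * Real.exp ((w + ε - 3 / 4 * m0) * L) * H := by
          gcongr
      _ = _ := by ring
  rw [← mul_assoc] at hall
  have hall2 := le_of_mul_le_mul_right hall hH
  rw [← Real.exp_add] at hall2
  have hlo : Real.exp ((w - 3 * ε) * L - 1) ≤ Real.exp (-(2 * ε * L) + (L * xp - 1)) := by
    apply Real.exp_le_exp.2
    have : L * (w - ε) ≤ L * xp := by
      gcongr
      linarith
    linarith
  have hall3 := hlo.trans hall2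
  -- both terms are at most one quarter
  have hA : Real.exp ((w - ε4) * L) * (2 * Real.exp 1 * L) <
      Real.exp ((w - 3 * ε) * L) := by
    have h6 := hL3 L hLL3
    calc Real.exp ((w - ε4) * L) * (2 * Real.exp 1 * L)
        < Real.exp ((w - ε4) * L) * Real.exp (ε4 / 2 * L) := by gcongr
      _ = Real.exp ((w - ε4) * L + ε4 / 2 * L) := by rw [← Real.exp_add]
      _ ≤ Real.exp ((w - 3 * ε) * L) := by
          apply Real.exp_le_exp.2
          have h7 : 3 * ε * L ≤ 3 * (ε4 / 16) * L := by gcongr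
          have h8 : 0 < ε4 * L := by positivity
          linarith
  have hB : Real.exp ((w + ε - 3 / 4 * m0) * L) * (2 * Real.exp 1 * L) <
      Real.exp ((w - 3 * ε) * L) := by
    have h6 := hL2 L hLL2
    calc Real.exp ((w + ε - 3 / 4 * m0) * L) * (2 * Real.exp 1 * L)
        < Real.exp ((w + ε - 3 / 4 * m0) * L) * Real.exp (m0 / 2 * L) := by gcongr
      _ = Real.exp ((w + ε - 3 / 4 * m0) * L + m0 / 2 * L) := by rw [← Real.exp_add]
      _ ≤ Real.exp ((w - 3 * ε) * L) := by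
          apply Real.exp_le_exp.2
          have h7 : 4 * ε * L ≤ 4 * (m0 / 32) * L := by gcongr
          have h8 : 0 < m0 * L := by positivity
          linarith
  have hC : Real.exp ((w - 3 * ε) * L) = Real.exp 1 * Real.exp ((w - 3 * ε) * L - 1) := by
    rw [← Real.exp_add]; congr 1; ring
  have he1 : 0 < Real.exp 1 := Real.exp_pos 1
  set E := Real.exp ((w - 3 * ε) * L - 1) with hE
  set A := Real.exp ((w - ε4) * L) with hAdef
  set B := Real.exp ((w + ε - 3 / 4 * m0) * L) with hBdef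
  have hApos : 0 < A := Real.exp_pos _
  have hBpos : 0 < B := Real.exp_pos _
  rw [hC] at hA hB
  have hA' : 2 * (A * L) < E := by
    have : Real.exp 1 * (2 * (A * L)) < Real.exp 1 * E := by
      calc Real.exp 1 * (2 * (A * L)) = A * (2 * Real.exp 1 * L) := by ring
        _ < _ := hA
    exact lt_of_mul_lt_mul_left this he1.le
  have hB' : 2 * (B * L) < E := by
    have : Real.exp 1 * (2 * (B * L)) < Real.exp 1 * E := by
      calc Real.exp 1 * (2 * (B * L)) = B * (2 * Real.exp 1 * L) := by ring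
        _ < _ := hB
    exact lt_of_mul_lt_mul_left this he1.le
  have hAL : A ≤ A * L := le_mul_of_one_le_right hApos.le (by linarith)
  have : E ≤ A * L + B * L := by
    calc E ≤ A + L * B := hall3
      _ ≤ A * L + B * L := by rw [mul_comm L B]; gcongr
  linarith

end Pool.Agent.U4.JD
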